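import Pool.Agent.Run7.h89.HB.Sha

/-!
# Several multipliers over a field generated by square roots of multipliers: the joint law
-/

set_option autoImplicit false
set_option linter.unusedSectionVars false

open scoped Classical symmDiff

namespace Pool.Agent.Run7.h89.HB

open Filter Topology Finset
open _root_.Run7.h428.NF (EF tn MQ HF mem_HF)
open _root_.Run7.h428.Kum (fld)
open _root_.Run7.h428.X15 (Mu GdS num prop_P am mq)
open Pool.Agent.N969.P15 (Cls0 Qc)
open Pool.Agent.Run7.h238.J (tw)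

open Pool.Agent.N916.GB (eta)

/-- the multipliers form a group modulo squares -/
theorem mu_tw {a m : ℕ} (ha : Mu a) (hm : Mu m) : Mu (tw a m) := by
  have h := Pool.Agent.Run7.h424.J.tw_spec ha.1 hm.1
  refine ⟨h.1, _root_.Run7.h428.X15.mu_of_sq h.1 (P := a * m) ?_ ?_⟩
  · rw [Nat.mul_mod]
    rcases ha.2 with h1 | h1 <;> rcases hm.2 with h2 | h2 <;> rw [h1, h2] <;> norm_num
  · rw [← h.2.2]
    exact ⟨tw a m * Nat.gcd a m, by ring⟩

theorem am_of {m : ℕ} (hm : Mu m) : am m.primeFactors :=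
  ⟨fun _ hl => Nat.prime_of_mem_primeFactors hl, by
    rw [Nat.prod_primeFactors_of_squarefree hm.1]
    exact hm.2⟩

/-- the masks of the multiplier `a` over the field -/
noncomputable def Hs (S : Finset ℕ) (a : ℕ) : Finset (Finset ℕ) :=
  (HF (fld (S : Set ℕ)) S).image fun V => V ∆ a.primeFactors

variable {S : Finset ℕ}

theorem card_Hs (hS : ∀ m ∈ S, Mu m) (a : ℕ) :
    (Hs S a).card = Module.finrank ℚ (fld (S : Set ℕ)) := by
  obtain ⟨r, h⟩ := mq hS
  rw [h.finrank_eq, Hs, Finset.card_image_of_injective]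
  intro V V' hV
  exact symmDiff_left_injective a.primeFactors hV

theorem mask_mu (hS : ∀ m ∈ S, Mu m) {V : Finset ℕ} (hV : V ∈ HF (fld (S : Set ℕ)) S) :
    Mu (∏ l ∈ V, l) ∧ (∏ l ∈ V, l).primeFactors = V := by
  obtain ⟨r, h⟩ := mq hS
  exact ⟨⟨_root_.Run7.h428.X15.sqf_pr (h.pr V hV), h.m60 V hV⟩, Nat.primeFactors_prod (h.pr V hV)⟩

theorem am_Hs (hS : ∀ m ∈ S, Mu m) {a : ℕ} (ha : Mu a) : ∀ W ∈ Hs S a, am W := by
  intro W hW
  obtain ⟨V, hV, rfl⟩ := Finset.mem_image.1 hW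
  obtain ⟨h1, h2⟩ := mask_mu hS hV
  have h3 := Pool.Agent.Run7.h424.J.tw_spec ha.1 h1.1
  have h4 := am_of (mu_tw ha h1)
  rw [h3.2.1, h2] at h4
  exact h4

theorem gd_tw (hS : ∀ m ∈ S, Mu m) {a : ℕ} (ha : Mu a) {n : ℕ} (hn : Cls0 n) :
    GdS (fld (S : Set ℕ)) (tw a n) ↔ ∀ V ∈ Hs S a, Qc (tn n V) := by
  rw [_root_.Run7.h428.X15.gd_iff hS (cls_tw ha hn)]
  have h3 := Pool.Agent.Run7.h424.J.tw_spec ha.1 hn.1
  have key : ∀ V : Finset ℕ, tn (tw a n) V = tn n (V ∆ a.primeFactors) := by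
    intro V
    unfold tn
    rw [h3.2.1, symmDiff_comm V a.primeFactors, symmDiff_assoc]
  constructor
  · intro h W hW
    obtain ⟨V, hV, rfl⟩ := Finset.mem_image.1 hW
    rw [← key]
    exact h V hV
  · intro h V hV
    rw [key]
    exact h _ (Finset.mem_image_of_mem _ hV)

/-- different square classes over the field have disjoint masks -/
theorem disj (hS : ∀ m ∈ S, Mu m) {a b : ℕ} (ha : Mu a) (hb : Mu b)
    (h : ¬ ∃ z ∈ fld (S : Set ℕ), z ^ 2 = ((a * b : ℕ) : ℂ)) : Disjoint (Hs S a) (Hs S b) := by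
  rw [Finset.disjoint_left]
  intro W h1 h2
  obtain ⟨V, hV, rfl⟩ := Finset.mem_image.1 h1
  obtain ⟨V', hV', h3⟩ := Finset.mem_image.1 h2
  obtain ⟨r, hr⟩ := mq hS
  have h4 : V ∆ V' = b.primeFactors ∆ a.primeFactors := by
    have h5 : V' = V ∆ a.primeFactors ∆ b.primeFactors := by
      have h6 : V' ∆ b.primeFactors ∆ b.primeFactors = V ∆ a.primeFactors ∆ b.primeFactors := by
        have h7 : V' ∆ b.primeFactors = V ∆ a.primeFactors := h3
        rw [h7]
      rw [symmDiff_symmDiff_cancel_right] at h6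
      exact h6
    rw [h5, symmDiff_assoc V, ← symmDiff_assoc V V, symmDiff_self, bot_symmDiff,
      symmDiff_comm b.primeFactors]
  have h5 := hr.sd V hV V' hV'
  rw [h4] at h5
  have h6 := (mem_HF.1 h5).2
  have h7 := Pool.Agent.Run7.h424.J.tw_spec ha.1 hb.1
  rw [← h7.2.1, Nat.prod_primeFactors_of_squarefree h7.1] at h6
  obtain ⟨z, hz, hz2⟩ := (_root_.Run7.h428.X15.sqrt_iff S _).2 h6
  refine h ⟨z * (Nat.gcd a b : ℂ), mul_mem hz ?_, ?_⟩
  · exact_mod_cast (fld (S : Set ℕ)).algebraMap_mem (Nat.gcd a b : ℚ)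
  · rw [mul_pow, hz2, ← h7.2.2]
    push_cast
    ring

theorem num_add (Q G : ℕ → Prop) (X : ℕ) :
    num Q X = num (fun n => Q n ∧ G n) X + num (fun n => Q n ∧ ¬ G n) X := by
  unfold num
  rw [← Finset.card_filter_add_card_filter_not (s := (Icc 1 X).filter fun n =>
    _root_.Run7.h428.X15.Cl n ∧ Q n) (fun n => G n), filter_filter, filter_filter]
  simp only [and_assoc]

theorem pat_aux (hS : ∀ m ∈ S, Mu m) (T R : Finset ℕ) (hTR : Disjoint T R)
    (hmu : ∀ a ∈ T ∪ R, Mu a)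
    (hsep : ∀ a ∈ T ∪ R, ∀ b ∈ T ∪ R, a ≠ b →
      ¬ ∃ z ∈ fld (S : Set ℕ), z ^ 2 = ((a * b : ℕ) : ℂ)) :
    Tendsto (fun X : ℕ => (num (fun n => (∀ a ∈ T, GdS (fld (S : Set ℕ)) (tw a n)) ∧
      ∀ a ∈ R, ¬ GdS (fld (S : Set ℕ)) (tw a n)) X : ℝ) / (num (fun _ => True) X : ℝ)) atTop
      (𝓝 ((eta ^ Module.finrank ℚ (fld (S : Set ℕ))) ^ T.card *
        (1 - eta ^ Module.finrank ℚ (fld (S : Set ℕ))) ^ R.card)) := by
  induction R using Finset.induction_on generalizing T with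
  | empty =>
    have h := prop_P (T.biUnion (Hs S)) (fun V hV => by
        obtain ⟨a, ha, hV⟩ := Finset.mem_biUnion.1 hV
        exact am_Hs hS (hmu a (mem_union_left _ ha)) V hV)
      (Q := fun n => (∀ a ∈ T, GdS (fld (S : Set ℕ)) (tw a n)) ∧
        ∀ a ∈ (∅ : Finset ℕ), ¬ GdS (fld (S : Set ℕ)) (tw a n)) (fun n hn => by
        constructor
        · rintro ⟨h1, -⟩ V hV
          obtain ⟨a, ha, hV⟩ := Finset.mem_biUnion.1 hV
          exact (gd_tw hS (hmu a (mem_union_left _ ha)) hn).1 (h1 a ha) V hV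
        · intro h1
          refine ⟨fun a ha => (gd_tw hS (hmu a (mem_union_left _ ha)) hn).2 fun V hV =>
            h1 V (Finset.mem_biUnion.2 ⟨a, ha, hV⟩), fun a ha => absurd ha (Finset.notMem_empty a)⟩)
    rw [Finset.card_biUnion (fun a ha b hb hab => disj hS (hmu a (mem_union_left _ ha))
      (hmu b (mem_union_left _ hb)) (hsep a (mem_union_left _ ha) b (mem_union_left _ hb) hab)),
      Finset.sum_congr rfl (fun a _ => card_Hs hS a), Finset.sum_const, smul_eq_mul, mul_comm,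
      pow_mul] at h
    rw [card_empty, pow_zero, mul_one]
    exact h
  | insert c R hcR ih =>
    have hcT : c ∉ T := fun h => (Finset.disjoint_left.1 hTR h) (mem_insert_self c R)
    have s1 : ∀ a ∈ T ∪ R, a ∈ T ∪ insert c R := fun a ha => by
      rw [mem_union] at ha ⊢
      exact ha.imp id fun h => mem_insert_of_mem h
    have s2 : ∀ a ∈ insert c T ∪ R, a ∈ T ∪ insert c R := fun a ha => by
      rw [mem_union, mem_insert] at ha
      rw [mem_union, mem_insert]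
      tauto
    have h1 := ih T (Finset.disjoint_of_subset_right (subset_insert c R) hTR)
      (fun a ha => hmu a (s1 a ha)) (fun a ha b hb => hsep a (s1 a ha) b (s1 b hb))
    have h2 := ih (insert c T) (by
        rw [Finset.disjoint_insert_left]
        exact ⟨hcR, Finset.disjoint_of_subset_right (subset_insert c R) hTR⟩)
      (fun a ha => hmu a (s2 a ha)) (fun a ha b hb => hsep a (s2 a ha) b (s2 b hb))
    have h3 := h1.sub h2
    rw [card_insert_of_notMem hcT] at h3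
    rw [card_insert_of_notMem hcR]
    set q := eta ^ Module.finrank ℚ (fld (S : Set ℕ)) with hq
    have e : q ^ T.card * (1 - q) ^ R.card - q ^ (T.card + 1) * (1 - q) ^ R.card =
        q ^ T.card * (1 - q) ^ (R.card + 1) := by ring
    rw [e] at h3
    refine h3.congr fun X => ?_
    rw [← sub_div]
    congr 1
    have h5 := num_add (fun n => (∀ a ∈ T, GdS (fld (S : Set ℕ)) (tw a n)) ∧
      ∀ a ∈ R, ¬ GdS (fld (S : Set ℕ)) (tw a n)) (fun n => GdS (fld (S : Set ℕ)) (tw c n)) X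
    have e1 : num (fun n => ((∀ a ∈ T, GdS (fld (S : Set ℕ)) (tw a n)) ∧
        ∀ a ∈ R, ¬ GdS (fld (S : Set ℕ)) (tw a n)) ∧ GdS (fld (S : Set ℕ)) (tw c n)) X =
        num (fun n => (∀ a ∈ insert c T, GdS (fld (S : Set ℕ)) (tw a n)) ∧
          ∀ a ∈ R, ¬ GdS (fld (S : Set ℕ)) (tw a n)) X := by
      congr 1
      funext n
      simp only [Finset.forall_mem_insert, eq_iff_iff]
      tauto
    have e2 : num (fun n => ((∀ a ∈ T, GdS (fld (S : Set ℕ)) (tw a n)) ∧
        ∀ a ∈ R, ¬ GdS (fld (S : Set ℕ)) (tw a n)) ∧ ¬ GdS (fld (S : Set ℕ)) (tw c n)) X =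
        num (fun n => (∀ a ∈ T, GdS (fld (S : Set ℕ)) (tw a n)) ∧
          ∀ a ∈ insert c R, ¬ GdS (fld (S : Set ℕ)) (tw a n)) X := by
      congr 1
      funext n
      simp only [Finset.forall_mem_insert, eq_iff_iff]
      tauto
    rw [e1, e2] at h5
    rw [h5]
    push_cast
    ring

/-- **all patterns** -/
theorem pat (hS : ∀ m ∈ S, Mu m) {A T : Finset ℕ} (hA : ∀ a ∈ A, Mu a)
    (hsep : ∀ a ∈ A, ∀ b ∈ A, a ≠ b → ¬ ∃ z ∈ fld (S : Set ℕ), z ^ 2 = ((a * b : ℕ) : ℂ))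
    (hT : T ⊆ A) :
    Tendsto (fun X : ℕ => (num (fun n => ∀ a ∈ A, (GdS (fld (S : Set ℕ)) (tw a n) ↔ a ∈ T)) X : ℝ) /
      (num (fun _ => True) X : ℝ)) atTop
      (𝓝 ((eta ^ Module.finrank ℚ (fld (S : Set ℕ))) ^ T.card *
        (1 - eta ^ Module.finrank ℚ (fld (S : Set ℕ))) ^ (A.card - T.card))) := by
  have hu : T ∪ A \ T = A := Finset.union_sdiff_of_subset hT
  have h := pat_aux hS T (A \ T) Finset.disjoint_sdiff (by rwa [hu]) (by rwa [hu])
  rw [Finset.card_sdiff_of_subset hT] at h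
  refine h.congr fun X => ?_
  congr 3
  funext n
  rw [eq_iff_iff]
  constructor
  · rintro ⟨h1, h2⟩ a ha
    constructor
    · intro hq
      by_contra hT'
      exact h2 a (Finset.mem_sdiff.2 ⟨ha, hT'⟩) hq
    · exact fun haT => h1 a haT
  · intro h1
    refine ⟨fun a ha => (h1 a (hT ha)).2 ha, fun a ha hq => ?_⟩
    rw [Finset.mem_sdiff] at ha
    exact ha.2 ((h1 a ha.1).1 hq)

end Pool.Agent.Run7.h89.HB
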