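import Pool.Agent.Run7.h428.X15.Fin
import Pool.Agent.Run7.h424.XK.Cmp
import Pool.Agent.Y655.XT.Shavc
import Pool.Agent.Y667.BKP.Main

/-!
# The Tate-Shafarevich group and the Bloch–Kato Selmer group of the twists of `X_0(15)` over the fields
# generated by square roots of multipliers
-/

set_option autoImplicit false
set_option linter.unusedSectionVars false

attribute [-instance] DivisionRing.toRatAlgebra

open scoped Classical

namespace Pool.Agent.Run7.h89.HB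

open WeierstrassCurve NumberField
open Pool.Agent.TH841.NF (Sc)
open Pool.Agent.TH841.NF.D (Sha)
open Pool.Agent.Y700 (VR)
open _root_.Run7.h921.NF (cv)
open _root_.Run7.h428.NF (EF tn)
open _root_.Run7.h428.Kum (fld)
open _root_.Run7.h428.X15 (Mu GdS)
open Pool.Agent.N969.P15 (Cls0 Qc)
open Pool.Agent.Run7.h238.J (tw)

/-- Tate-Shafarevich groups of isomorphic curves -/
theorem sha_iso {F : Type} [Field F] [NumberField F] {V W : WeierstrassCurve F} {u r s t : F}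
    (h : VR V W u r s t) (hD : W.Δ ≠ 0) {a b : ℕ} :
    (∀ x : Sha W, a • x = 0 → b • x = 0) ↔ (∀ x : Sha V, a • x = 0 → b • x = 0) := by
  have f := (Pool.Agent.Y655.XT.isoVR h hD).sha
  constructor
  · intro h1 x hx
    have h2 := h1 (f.symm x) (by rw [← map_nsmul, hx, map_zero])
    rwa [← map_nsmul, AddEquiv.map_eq_zero_iff] at h2
  · intro h1 x hx
    have h2 := h1 (f x) (by rw [← map_nsmul, hx, map_zero])
    rwa [← map_nsmul, AddEquiv.map_eq_zero_iff] at h2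

theorem cv_ne {n : ℕ} (hn : n ≠ 0) (k : Type) [Field k] [CharZero k] : (cv n k).Δ ≠ 0 := by
  have e : (cv n k).Δ = ((16 ^ 2 * 9 ^ 2 * 25 ^ 2 * n ^ 6 * 16 : ℕ) : k) := by
    simp only [cv, WeierstrassCurve.Δ, WeierstrassCurve.b₂, WeierstrassCurve.b₄,
      WeierstrassCurve.b₆, WeierstrassCurve.b₈]
    push_cast
    ring
  rw [e, Nat.cast_ne_zero]
  positivity

/-- good numbers over `ℚ` -/
theorem sha_Q {m : ℕ} (hm : Cls0 m) (hq : Qc m) (j : ℕ) (x : Sha (cv m ℚ)) (hx : 2 ^ j • x = 0) :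
    x = 0 := by
  have e : cv m ℚ = ⟨0, ((34 * (m : ℤ) : ℤ) : ℚ), 0, ((225 * (m : ℤ) ^ 2 : ℤ) : ℚ), 0⟩ := by
    unfold cv
    push_cast
    rfl
  exact ((_root_.Run7.h424.DC.iffF hm.1 hm.2 e).2 hq).2 j x hx

theorem sha_sq {a b t : ℕ} (h : a = b * t ^ 2) (hb : b ≠ 0) (ht : t ≠ 0) {k l : ℕ} :
    (∀ x : Sha (cv b ℚ), k • x = 0 → l • x = 0) ↔ (∀ x : Sha (cv a ℚ), k • x = 0 → l • x = 0) := by
  have h1 : VR (cv a ℚ) (cv b ℚ) (t : ℚ) 0 0 0 := by
    refine ⟨Nat.cast_ne_zero.2 ht, ?_, ?_, ?_, ?_, ?_⟩ <;> simp only [cv, h] <;> push_cast <;> ring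
  exact sha_iso h1 (cv_ne hb ℚ)

theorem cls_tw {m n : ℕ} (hm : Mu m) (hn : Cls0 n) : Cls0 (tw m n) := by
  have hT : ∀ l ∈ m.primeFactors, l.Prime := fun l hl => Nat.prime_of_mem_primeFactors hl
  have e : tn n m.primeFactors = tw m n := by
    rw [_root_.Run7.h428.X15.tn_tw hn.1 hT, Nat.prod_primeFactors_of_squarefree hm.1]
  rw [← e]
  refine ⟨_root_.Run7.h428.NF.tn_sqf hT, _root_.Run7.h428.NF.tn_mod hn.1 hn.2 hT ?_⟩
  rw [Nat.prod_primeFactors_of_squarefree hm.1]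
  exact hm.2

/-- **the 2-primary part of the Tate-Shafarevich group over the field** -/
theorem sha_F {S : Finset ℕ} (hS : ∀ m ∈ S, Mu m) {n : ℕ} (hn : Cls0 n)
    (hg : GdS (fld (S : Set ℕ)) n) (k : ℕ) (x : Sha (EF (fld (S : Set ℕ)) (-(n : ℤ))))
    (hx : 2 ^ k • x = 0) : 2 ^ S.card • x = 0 := by
  have hn0 : n ≠ 0 := hn.1.ne_zero
  have h60 := hn.2
  have h4 : (-(n : ℤ)) % 4 = 1 := by omega
  have hvr := _root_.Run7.h921.NF.vr (F := fld (S : Set ℕ)) h4
  have hD := _root_.Run7.h428.X15.EF_ne hn (fld (S : Set ℕ))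
  refine (sha_iso hvr hD (a := 2 ^ k) (b := 2 ^ S.card)).2 ?_ x hx
  clear hx x
  intro x hx
  let e : Fin S.card ≃ S := S.equivFin.symm
  choose r hr using _root_.Run7.h428.X15.gen1 S
  have hW : Sc (algebraMap ℚ (fld (S : Set ℕ))) 1 (cv n ℚ) (cv n (fld (S : Set ℕ))) := by
    refine ⟨one_ne_zero, ?_, ?_, ?_, ?_, ?_⟩ <;> simp [cv]
  have hgen : IntermediateField.adjoin ℚ (Set.range fun i => r (e i) (e i).2) = ⊤ := by
    have h1 := _root_.Run7.h428.X15.gen2 S
      (IntermediateField.adjoin ℚ (Set.range fun i => r (e i) (e i).2)).toSubfield ?_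
    · rw [eq_top_iff]
      intro y _
      have h2 : y ∈ (IntermediateField.adjoin ℚ
          (Set.range fun i => r (e i) (e i).2)).toSubfield := by
        rw [h1]
        trivial
      exact h2
    · intro d hd z hz
      obtain ⟨i, hi⟩ := e.surjective ⟨d, hd⟩
      have h2 : r (e i) (e i).2 ∈ (IntermediateField.adjoin ℚ
          (Set.range fun i => r (e i) (e i).2)).toSubfield :=
        IntermediateField.subset_adjoin ℚ _ ⟨i, rfl⟩
      have h3 : z ^ 2 = r (e i) (e i).2 ^ 2 := by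
        rw [hz, hr, hi]
      rcases sq_eq_sq_iff_eq_or_eq_neg.1 h3 with h4 | h4
      · rw [h4]
        exact h2
      · rw [h4]
        exact neg_mem h2
  refine Pool.Agent.Run7.h424.XK.sha_mq hW (E := cv n ℚ) rfl rfl
    (r := fun i => r (e i) (e i).2) (d := fun i => (((e i : S) : ℕ) : ℚ)) (fun i => ?_)
    (fun i => ?_) hgen (fun T j y hy => ?_) k x hx
  · rw [hr, map_natCast]
  · exact Nat.cast_ne_zero.2 (hS _ (e i).2).1.ne_zero
  · have hP0 : (∏ i ∈ T, ((e i : S) : ℕ)) ≠ 0 :=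
      Finset.prod_ne_zero_iff.2 fun i _ => (hS _ (e i).2).1.ne_zero
    obtain ⟨m, c, hmc, hm⟩ := Nat.sq_mul_squarefree (∏ i ∈ T, ((e i : S) : ℕ))
    have hc0 : c ≠ 0 := by
      rintro rfl
      rw [zero_pow two_ne_zero, zero_mul] at hmc
      exact hP0 hmc.symm
    -- the square root of `m`
    have hz : ∃ z : fld (S : Set ℕ), z ^ 2 = (m : fld (S : Set ℕ)) := by
      refine ⟨(∏ i ∈ T, r (e i) (e i).2) / (c : fld (S : Set ℕ)), ?_⟩
      have hc1 : (c : fld (S : Set ℕ)) ≠ 0 := Nat.cast_ne_zero.2 hc0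
      rw [div_pow, ← Finset.prod_pow, div_eq_iff (pow_ne_zero 2 hc1)]
      rw [Finset.prod_congr rfl fun i _ => hr (e i) (e i).2, ← Nat.cast_prod, ← hmc]
      push_cast
      ring
    have hz' := (_root_.Run7.h428.X15.sqrt_iff S m).2 hz
    have hmu : Mu m := _root_.Run7.h428.X15.mu_of_sqrt (S := (S : Set ℕ)) (fun a ha => hS a ha) hm hz'
    have hcl := cls_tw hmu hn
    have hq := hg m hm hz'
    have e1 : Pool.Agent.TH841.NF.tw (∏ i ∈ T, (((e i : S) : ℕ) : ℚ)) (cv n ℚ) =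
        cv ((∏ i ∈ T, ((e i : S) : ℕ)) * n) ℚ := by
      unfold Pool.Agent.TH841.NF.tw cv
      push_cast
      congr 1 <;> ring
    revert y
    rw [e1]
    have hsp := (Pool.Agent.Run7.h424.J.tw_spec hm hn.1).2.2
    have hg0 : Nat.gcd m n ≠ 0 := (Nat.gcd_pos_of_pos_right _ (Nat.pos_of_ne_zero hn0)).ne'
    have h5 := (sha_sq (a := (∏ i ∈ T, ((e i : S) : ℕ)) * n) (b := tw m n)
      (t := Nat.gcd m n * c) (by
        rw [← hmc]
        have : c ^ 2 * m * n = (tw m n * Nat.gcd m n ^ 2) * c ^ 2 := by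
          rw [hsp]
          ring
        rw [this]
        ring) hcl.1.ne_zero (mul_ne_zero hg0 hc0) (k := 2 ^ j) (l := 1)).1
      (fun y hy => by rw [one_smul]; exact sha_Q hcl hq j y hy)
    intro y hy
    have h6 := h5 y hy
    rwa [one_smul] at h6

/-- **the Bloch–Kato Selmer group over the field is zero** -/
theorem h1f_F {S : Finset ℕ} (hS : ∀ m ∈ S, Mu m) {n : ℕ} (hn : Cls0 n)
    (hg : GdS (fld (S : Set ℕ)) n) :
    ∀ x : Pool.Agent.Y667.BKP.H1f 2 (EF (fld (S : Set ℕ)) (-(n : ℤ))), x = 0 :=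
  Pool.Agent.Y667.BKP.h1f_zero Nat.prime_two (_root_.Run7.h428.X15.zero_S hS hn hg).2 S.card
    fun k x hx => sha_F hS hn hg k x hx

end Pool.Agent.Run7.h89.HB
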